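import Mathlib

/-!
# Neighborhood Lights Out: the conjectured maximum size is wrong for every `k ≥ 5`

Let `G` be the complement of `K₄ ∪ m K₂` on `n = 2m + 4` vertices. The determinant of its closed
neighbourhood matrix is `± (3n - 11)`, so `G` is always winnable modulo `ℓ` as soon as `3n - 11` is
prime to `ℓ`. It has `C(n,2) - (n/2 + 4)` edges. For every `K` there are even `n`, `ℓ` with
`k(n,ℓ) = K` and `gcd(3n - 11, ℓ) = 1`.
-/

set_option autoImplicit false

namespace Pool.Agent.Results.MP_7a9eeb_co.CompleteFour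

open Finset

/-- The neighborhood Lights Out game on `G` with labels in `ℤ/ℓ` can be won from every initial
labeling `lab`: for some numbers `x u` of toggles of the vertices `u`, all final labels
`lab v + ∑_{u ∈ N[v]} x u` are `0`. -/
def AlwaysWinnable {V : Type} [Fintype V] (ℓ : ℕ) (G : SimpleGraph V) : Prop :=
  ∀ lab : V → ZMod ℓ, ∃ x : V → ℕ, ∀ v,
    lab v + ∑ᶠ u ∈ {u | u = v ∨ G.Adj v u}, (x u : ZMod ℓ) = 0

/-- `K = k(n, ℓ)`: the least nonnegative integer `k` with `gcd(n - 2k - 1, ℓ) = 1`. -/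
def IsK (n ℓ K : ℕ) : Prop := IsLeast {k : ℕ | Int.gcd ((n : ℤ) - 2 * k - 1) ℓ = 1} K

/-- the vertex set -/
abbrev W (m : ℕ) : Type := Fin 4 ⊕ (Fin m × Bool)

/-- `K₄ ∪ m K₂` -/
def H (m : ℕ) : SimpleGraph (W m) where
  Adj u v := match u, v with
    | Sum.inl a, Sum.inl b => a ≠ b
    | Sum.inr (i, β), Sum.inr (j, γ) => i = j ∧ β ≠ γ
    | _, _ => False
  symm := ⟨by
    rintro (a | ⟨i, β⟩) (b | ⟨j, γ⟩) h
    · exact h.symm
    · exact h.elim
    · exact h.elim
    · exact ⟨h.1.symm, h.2.symm⟩⟩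
  loopless := ⟨by
    rintro (a | ⟨i, β⟩) h
    · exact h rfl
    · exact h.2 rfl⟩

/-- the complement of `K₄ ∪ m K₂` -/
def G (m : ℕ) : SimpleGraph (W m) := (H m)ᶜ

lemma sum_closed {V : Type} [Fintype V] (H : SimpleGraph V) {R : Type} [CommRing R] (y : V → R)
    (v : V) : ∑ᶠ u ∈ {u | u = v ∨ Hᶜ.Adj v u}, y u = ∑ u, y u - ∑ᶠ u ∈ {u | H.Adj v u}, y u := by
  classical
  have h1 : {u | u = v ∨ Hᶜ.Adj v u} = ((univ.filter fun u => ¬ H.Adj v u : Finset V) : Set V) := by
    ext u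
    simp only [Set.mem_ofPred_eq, coe_filter, mem_univ, true_and, SimpleGraph.compl_adj]
    constructor
    · rintro (rfl | h)
      · exact H.loopless.irrefl _
      · exact h.2
    · intro h
      by_cases h2 : u = v
      · exact Or.inl h2
      · exact Or.inr ⟨fun h3 => h2 h3.symm, h⟩
  have h2 : {u | H.Adj v u} = ((univ.filter fun u => H.Adj v u : Finset V) : Set V) := by
    ext u
    simp
  rw [h1, h2, finsum_mem_coe_finset, finsum_mem_coe_finset, eq_sub_iff_add_eq, add_comm,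
    Finset.sum_filter_add_sum_filter_not]

lemma set_inr {m : ℕ} (i : Fin m) (β : Bool) :
    {u | (H m).Adj (Sum.inr (i, β)) u} = {Sum.inr (i, !β)} := by
  ext u
  simp only [Set.mem_ofPred_eq, Set.mem_singleton_iff]
  rcases u with a | ⟨j, γ⟩
  · constructor
    · intro h; exact h.elim
    · intro h; cases h
  · constructor
    · rintro ⟨h1, h2⟩
      rw [← h1]
      congr 2
      revert h2; cases β <;> cases γ <;> simp
    · intro h
      have h' := Sum.inr.inj h
      have h1 := (Prod.mk.inj h').1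
      have h2 := (Prod.mk.inj h').2
      exact ⟨h1.symm, by rw [h2]; cases β <;> simp⟩

lemma set_inl {m : ℕ} (a : Fin 4) :
    {u | (H m).Adj (Sum.inl a) u} =
      (((univ.erase a).map ⟨Sum.inl, Sum.inl_injective⟩ : Finset (W m)) : Set (W m)) := by
  ext u
  simp only [Set.mem_ofPred_eq, coe_map, Set.mem_image, coe_erase, coe_univ, Set.mem_sdiff,
    Set.mem_univ, true_and, Set.mem_singleton_iff, Function.Embedding.coeFn_mk]
  rcases u with b | ⟨j, γ⟩
  · constructor
    · intro h; exact ⟨b, fun h' => h h'.symm, rfl⟩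
    · rintro ⟨c, hc, hcb⟩
      have := Sum.inl.inj hcb
      rw [← this]
      exact fun h => hc h.symm
  · constructor
    · intro h; exact h.elim
    · rintro ⟨c, _, hc⟩; cases hc

theorem winnable (m ℓ : ℕ) (hℓ : ℓ ≠ 0) (h : Nat.Coprime (6 * m + 1) ℓ) :
    AlwaysWinnable ℓ (G m) := by
  classical
  intro lab
  have : NeZero ℓ := ⟨hℓ⟩
  -- `u` is the inverse of `3 n - 11 = 6 m + 1`
  obtain ⟨u, hu⟩ : ∃ u : ZMod ℓ, u * (6 * (m : ZMod ℓ) + 1) = 1 := by
    have h1 : IsUnit ((6 * m + 1 : ℕ) : ZMod ℓ) := (ZMod.isUnit_iff_coprime _ _).2 h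
    obtain ⟨w, hw⟩ := h1
    refine ⟨↑w⁻¹, ?_⟩
    have h2 : ((6 * m + 1 : ℕ) : ZMod ℓ) = 6 * (m : ZMod ℓ) + 1 := by push_cast; ring
    rw [← h2, ← hw, Units.inv_mul]
  let μ : W m → ZMod ℓ := fun v => - lab v
  let M4 : ZMod ℓ := ∑ a : Fin 4, μ (Sum.inl a)
  let Mr : ZMod ℓ := ∑ p : Fin m × Bool, μ (Sum.inr p)
  let s : ZMod ℓ := u * (M4 + 3 * Mr)
  let T : ZMod ℓ := (1 - 2 * (m : ZMod ℓ)) * s + Mr
  let y : W m → ZMod ℓ := fun v => match v with
    | Sum.inl a => T - s + μ (Sum.inl a)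
    | Sum.inr (i, β) => s - μ (Sum.inr (i, !β))
  have hs : (6 * (m : ZMod ℓ) + 1) * s = M4 + 3 * Mr := by
    show (6 * (m : ZMod ℓ) + 1) * (u * (M4 + 3 * Mr)) = _
    rw [← mul_assoc, mul_comm _ u, hu, one_mul]
  have hy4 : ∑ a : Fin 4, y (Sum.inl a) = T := by
    have h1 : ∑ a : Fin 4, y (Sum.inl a) = 4 * (T - s) + M4 := by
      show ∑ a : Fin 4, (T - s + μ (Sum.inl a)) = _
      rw [Finset.sum_add_distrib, Finset.sum_const, Finset.card_univ, Fintype.card_fin]
      simp [M4]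
    rw [h1]
    have h2 : T = (1 - 2 * (m : ZMod ℓ)) * s + Mr := rfl
    have h3 : M4 = (6 * (m : ZMod ℓ) + 1) * s - 3 * Mr := by rw [hs]; ring
    rw [h3, h2]; ring
  have hyr : ∑ p : Fin m × Bool, y (Sum.inr p) = 2 * (m : ZMod ℓ) * s - Mr := by
    have h1 : ∀ p : Fin m × Bool, y (Sum.inr p) = s - μ (Sum.inr (p.1, !p.2)) := fun p => rfl
    rw [Finset.sum_congr rfl (fun p _ => h1 p), Finset.sum_sub_distrib, Finset.sum_const,
      Finset.card_univ, Fintype.card_prod, Fintype.card_fin, Fintype.card_bool]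
    have h2 : ∑ p : Fin m × Bool, μ (Sum.inr (p.1, !p.2)) = Mr := by
      rw [Fintype.sum_prod_type]
      show _ = ∑ p : Fin m × Bool, μ (Sum.inr p)
      rw [Fintype.sum_prod_type]
      apply Finset.sum_congr rfl
      intro i _
      simp only [Fintype.sum_bool, Bool.not_true, Bool.not_false]
      ring
    rw [h2]
    simp only [nsmul_eq_mul, Nat.cast_mul, Nat.cast_ofNat]
    ring
  have hsum : ∑ v, y v = s := by
    rw [Fintype.sum_sum_type, hy4, hyr]
    show (1 - 2 * (m : ZMod ℓ)) * s + Mr + (2 * (m : ZMod ℓ) * s - Mr) = s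
    ring
  refine ⟨fun v => (y v).val, fun v => ?_⟩
  have hcast : ∀ v : W m, (((y v).val : ℕ) : ZMod ℓ) = y v := fun v => ZMod.natCast_zmod_val _
  simp only [hcast]
  have hcl := sum_closed (H m) y v
  rw [hsum] at hcl
  have hG : (G m).Adj v = (H m)ᶜ.Adj v := rfl
  rw [hG, hcl]
  rcases v with a | ⟨i, β⟩
  · rw [set_inl, finsum_mem_coe_finset, Finset.sum_map]
    simp only [Function.Embedding.coeFn_mk]
    have h1 : ∑ b ∈ univ.erase a, y (Sum.inl b) = T - y (Sum.inl a) := by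
      rw [← hy4, ← Finset.add_sum_erase univ (fun b => y (Sum.inl b)) (mem_univ a)]
      ring
    rw [h1]
    show lab (Sum.inl a) + (s - (T - (T - s + -lab (Sum.inl a)))) = 0
    ring
  · rw [set_inr, finsum_mem_singleton]
    show lab (Sum.inr (i, β)) + (s - (s - -lab (Sum.inr (i, !!β)))) = 0
    rw [Bool.not_not]
    ring

lemma card_W (m : ℕ) : Fintype.card (W m) = 2 * m + 4 := by
  simp only [W, Fintype.card_sum, Fintype.card_prod, Fintype.card_fin, Fintype.card_bool]
  ring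

open Classical in
lemma ncard_edges (m : ℕ) : (G m).edgeSet.ncard = 2 * m ^ 2 + 6 * m := by
  have h1 : ∑ v, (G m).degree v = 2 * (G m).edgeFinset.card := (G m).sum_degrees_eq_twice_card_edges
  have h2 : ∀ v, (G m).degree v = Fintype.card (W m) - 1 - (H m).degree v := fun v => by
    rw [← SimpleGraph.degree_compl, ← SimpleGraph.card_neighborFinset_eq_degree,
      ← SimpleGraph.card_neighborFinset_eq_degree, ← Set.ncard_coe_finset,
      ← Set.ncard_coe_finset, SimpleGraph.coe_neighborFinset, SimpleGraph.coe_neighborFinset]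
    rfl
  have h3 : ∀ a : Fin 4, (H m).degree (Sum.inl a) = 3 := by
    intro a
    rw [← SimpleGraph.card_neighborFinset_eq_degree, ← Set.ncard_coe_finset,
      SimpleGraph.coe_neighborFinset]
    show ({u | (H m).Adj (Sum.inl a) u} : Set (W m)).ncard = 3
    rw [set_inl, Set.ncard_coe_finset, card_map, card_erase_of_mem (mem_univ _)]
    simp
  have h4 : ∀ p : Fin m × Bool, (H m).degree (Sum.inr p) = 1 := by
    rintro ⟨i, β⟩
    rw [← SimpleGraph.card_neighborFinset_eq_degree, ← Set.ncard_coe_finset,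
      SimpleGraph.coe_neighborFinset]
    show ({u | (H m).Adj (Sum.inr (i, β)) u} : Set (W m)).ncard = 1
    rw [set_inr, Set.ncard_singleton]
  rw [Fintype.sum_sum_type] at h1
  simp only [h2, h3, h4, card_W, Finset.sum_const, Finset.card_univ, Fintype.card_prod,
    Fintype.card_fin, Fintype.card_bool, smul_eq_mul] at h1
  rw [← SimpleGraph.coe_edgeFinset, Set.ncard_coe_finset]
  have h5 : 2 * m + 4 - 1 - 3 = 2 * m := by omega
  have h6 : 2 * m + 4 - 1 - 1 = 2 * m + 2 := by omega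
  rw [h5, h6] at h1
  nlinarith

/-- the arithmetic part: even `n`, `ℓ` with `k(n, ℓ) = K` and `gcd(3n - 11, ℓ) = 1` -/
theorem arithmetic (K : ℕ) : ∃ m ℓ : ℕ, 2 ≤ ℓ ∧ Even ℓ ∧ IsK (2 * m + 4) ℓ K ∧
    Nat.Coprime (6 * m + 1) ℓ := by
  classical
  let p : ℕ → ℕ := fun i => Nat.nth Nat.Prime (6 * K + 20 + i)
  have hp : ∀ i, (p i).Prime := fun i => Nat.prime_nth_prime _
  have hpbig : ∀ i, 6 * K + 20 < p i := by
    intro i
    have h1 : 6 * K + 20 + i + 2 ≤ p i := Nat.add_two_le_nth_prime _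
    omega
  have hpinj : Function.Injective p := by
    intro i j h
    have := Nat.nth_injective Nat.infinite_setOfPred_prime h
    omega
  -- the moduli
  let s : ℕ → ℕ := fun i => if i < K then p i else 2
  let a : ℕ → ℕ := fun i => if i < K then 2 * i + 1 else 0
  have hsne : ∀ i ∈ range (K + 1), s i ≠ 0 := by
    intro i _
    show (if i < K then p i else 2) ≠ 0
    split_ifs
    · exact (hp i).ne_zero
    · norm_num
  have hs2 : ∀ i, i < K → Nat.Coprime (p i) 2 := by
    intro i _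
    rw [Nat.coprime_primes (hp i) Nat.prime_two]
    have := hpbig i
    omega
  have hcop : Set.Pairwise (↑(range (K + 1)) : Set ℕ) (Function.onFun Nat.Coprime s) := by
    intro i hi j hj hij
    show Nat.Coprime (if i < K then p i else 2) (if j < K then p j else 2)
    have hi' : i < K + 1 := mem_range.1 hi
    have hj' : j < K + 1 := mem_range.1 hj
    by_cases h1 : i < K
    · by_cases h2 : j < K
      · rw [if_pos h1, if_pos h2, Nat.coprime_primes (hp i) (hp j)]
        exact fun h => hij (hpinj h)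
      · rw [if_pos h1, if_neg h2]; exact hs2 i h1
    · by_cases h2 : j < K
      · rw [if_neg h1, if_pos h2]; exact (hs2 j h2).symm
      · omega
  obtain ⟨n0, hn0⟩ := Nat.chineseRemainderOfFinset a s (range (K + 1)) hsne hcop
  set P : ℕ := ∏ i ∈ range K, p i with hP
  have hPpos : 0 < P := Finset.prod_pos (fun i _ => (hp i).pos)
  have hdvdP : ∀ i, i < K → p i ∣ P := fun i hi => Finset.dvd_prod_of_mem p (mem_range.2 hi)
  -- `n0` is even
  have heven : 2 ∣ n0 := by
    have := hn0 K (mem_range.2 (by omega))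
    simp only [s, a, if_neg (lt_irrefl K)] at this
    exact (Nat.modEq_zero_iff_dvd).1 this
  obtain ⟨c, hc⟩ := heven
  -- the number of vertices is `n = n0 + 2 P (2K + 4)`
  let n : ℕ := n0 + 2 * P * (2 * K + 4)
  obtain ⟨m, hm⟩ : ∃ m, n = 2 * m + 4 := by
    refine ⟨c + P * (2 * K + 4) - 2, ?_⟩
    have : 2 ≤ P * (2 * K + 4) := by nlinarith
    show n0 + 2 * P * (2 * K + 4) = _
    have h2 : 2 * P * (2 * K + 4) = 2 * (P * (2 * K + 4)) := by ring
    rw [h2, hc]
    omega
  have hnmod : ∀ i, i < K → (p i : ℤ) ∣ (n : ℤ) - (2 * i + 1) := by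
    intro i hi
    have h1 := hn0 i (mem_range.2 (by omega))
    simp only [s, a, if_pos hi] at h1
    have h2 : (p i : ℤ) ∣ (n0 : ℤ) - ((2 * i + 1 : ℕ) : ℤ) := (Nat.modEq_iff_dvd.1 h1.symm)
    have h3 : (p i : ℤ) ∣ ((2 * P * (2 * K + 4) : ℕ) : ℤ) := by
      rw [Int.natCast_dvd_natCast]
      exact Dvd.dvd.mul_right (Dvd.dvd.mul_left (hdvdP i hi) 2) _
    have h4 : (n : ℤ) - (2 * i + 1) = ((n0 : ℤ) - ((2 * i + 1 : ℕ) : ℤ)) +
        ((2 * P * (2 * K + 4) : ℕ) : ℤ) := by
      show ((n0 + 2 * P * (2 * K + 4) : ℕ) : ℤ) - (2 * i + 1) = _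
      push_cast; ring
    rw [h4]
    exact dvd_add h2 h3
  -- coprimality with `2 P`
  have hcoprime : ∀ z : ℤ, ¬ (2 : ℤ) ∣ z → (∀ i, i < K → ¬ (p i : ℤ) ∣ z) →
      Int.gcd z ((2 * P : ℕ) : ℤ) = 1 := by
    intro z h2 hz
    show Nat.Coprime z.natAbs (((2 * P : ℕ) : ℤ)).natAbs
    rw [Int.natAbs_natCast]
    rw [Nat.coprime_mul_iff_right]
    constructor
    · rw [Nat.coprime_comm, Nat.Prime.coprime_iff_not_dvd Nat.prime_two]
      intro h
      exact h2 (Int.natCast_dvd.2 h)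
    · rw [hP]
      apply Nat.Coprime.prod_right
      intro i hi
      rw [Nat.coprime_comm, Nat.Prime.coprime_iff_not_dvd (hp i)]
      intro h
      exact hz i (mem_range.1 hi) (Int.natCast_dvd.2 h)
  refine ⟨m, 2 * P, by omega, ⟨P, by ring⟩, ?_, ?_⟩
  · rw [← hm]
    constructor
    · -- `gcd(n - 2K - 1, ℓ) = 1`
      show Int.gcd ((n : ℤ) - 2 * K - 1) ((2 * P : ℕ) : ℤ) = 1
      apply hcoprime
      · intro h
        have : (n : ℤ) = 2 * m + 4 := by rw [hm]; push_cast; ring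
        omega
      · intro i hi h
        have h1 := dvd_sub (hnmod i hi) h
        have h2 : (n : ℤ) - (2 * i + 1) - ((n : ℤ) - 2 * K - 1) = 2 * ((K : ℤ) - i) := by ring
        rw [h2] at h1
        have h3 := Int.le_of_dvd (by omega) h1
        have h4 := hpbig i
        omega
    · -- minimality
      intro k hk
      by_contra hlt
      push Not at hlt
      have h1 : Int.gcd ((n : ℤ) - 2 * k - 1) ((2 * P : ℕ) : ℤ) = 1 := hk
      have h2 : (p k : ℤ) ∣ (n : ℤ) - 2 * k - 1 := by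
        have := hnmod k hlt
        have e : (n : ℤ) - 2 * k - 1 = (n : ℤ) - (2 * k + 1) := by ring
        rw [e]; exact this
      have h3 : (p k : ℤ) ∣ ((2 * P : ℕ) : ℤ) := by
        rw [Int.natCast_dvd_natCast]
        exact Dvd.dvd.mul_left (hdvdP k hlt) 2
      have h4 := Int.dvd_coe_gcd h2 h3
      rw [h1] at h4
      have h5 := Int.le_of_dvd (by norm_num) h4
      have h6 := hpbig k
      push_cast at h5
      omega
  · -- `3 n - 11 = 6 m + 1`
    have h1 := hcoprime (3 * (n : ℤ) - 11) (by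
        have : (n : ℤ) = 2 * m + 4 := by rw [hm]; push_cast; ring
        omega) (by
        intro i hi h
        have h1 := dvd_sub (Dvd.dvd.mul_left (hnmod i hi) 3) h
        have h2 : 3 * ((n : ℤ) - (2 * i + 1)) - (3 * (n : ℤ) - 11) = 8 - 6 * i := by ring
        rw [h2] at h1
        have h4 := hpbig i
        have h5 : (8 - 6 * (i : ℤ)) ≠ 0 := by omega
        have h6 := Int.natAbs_le_of_dvd_ne_zero h1 h5
        omega)
    have h2 : (3 * (n : ℤ) - 11) = ((6 * m + 1 : ℕ) : ℤ) := by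
      rw [hm]; push_cast; ring
    rw [h2, Int.gcd_natCast_natCast] at h1
    exact h1

/-- For every `K ≥ 5` there are even `n`, `ℓ` with `k(n, ℓ) = K` and an always-winnable graph on
`n` vertices with `C(n,2) - (n/2 + 4)` edges, which is more than `C(n,2) - (n/2 + K)`. -/
theorem result : ∀ K : ℕ, 5 ≤ K → ∃ n ℓ : ℕ, 2 ≤ n ∧ 2 ≤ ℓ ∧ Even n ∧ Even ℓ ∧ IsK n ℓ K ∧
    ∃ (V : Type) (_ : Fintype V) (G : SimpleGraph V), Fintype.card V = n ∧
      AlwaysWinnable ℓ G ∧ (G.edgeSet.ncard : ℤ) = n.choose 2 - (n / 2 + 4) ∧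
      (n.choose 2 : ℤ) - (n / 2 + K) < G.edgeSet.ncard := by
  intro K hK
  obtain ⟨m, ℓ, h1, h2, h3, h4⟩ := arithmetic K
  have hcard : ((G m).edgeSet.ncard : ℤ) =
      ((2 * m + 4).choose 2 : ℕ) - (((2 * m + 4 : ℕ) : ℤ) / 2 + 4) := by
    rw [ncard_edges]
    have h5 : (2 * m + 4).choose 2 = (m + 2) * (2 * m + 3) := by
      rw [Nat.choose_two_right]
      have : (2 * m + 4) * (2 * m + 4 - 1) = 2 * ((m + 2) * (2 * m + 3)) := by
        have : 2 * m + 4 - 1 = 2 * m + 3 := by omega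
        rw [this]; ring
      rw [this, Nat.mul_div_cancel_left _ (by norm_num)]
    have h6 : ((2 * m + 4 : ℕ) : ℤ) / 2 = m + 2 := by omega
    rw [h5, h6]
    push_cast
    ring
  refine ⟨2 * m + 4, ℓ, by omega, h1, ⟨m + 2, by ring⟩, h2, h3, W m, inferInstance, G m,
    card_W m, winnable m ℓ (by omega) h4, hcard, ?_⟩
  rw [hcard]
  have : (5 : ℤ) ≤ K := by exact_mod_cast hK
  linarith

end Pool.Agent.Results.MP_7a9eeb_co.CompleteFour
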